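import Pool.Agent.H662.Z7

/-!
# 0-h-minimality implies ω-h-minimality when there are no definable coarsenings
-/

set_option autoImplicit false

namespace Pool.Agent.Results.MP_5cb3d8_lc.ZeroOmegaNoCoarsening

open FirstOrder Language Structure Pool.Agent.R611.HM

universe u

/-- Let `K` be a valued field of equicharacteristic zero, with valuation ring `O`, in a language
expanding the language of valued fields. If the theory of `K` is 0-h-minimal and if no valuation
ring strictly between `O` and `K` is definable with parameters in `K`, then the theory of `K` is
`s`-h-minimal for every `s`, including `s = ω`. -/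
theorem result (L : FirstOrder.Language.{u, u}) (sy : ValSymbols L) (K : Type u)
    [L.Structure K] [Field K] (O : ValuationSubring K) (hO : IsValued sy O)
    (hnc : ∀ R : ValuationSubring K, O ≤ R → (Set.univ : Set K).Definable₁ L (R : Set K) →
      R = O ∨ R = ⊤) (h : HMinTh sy K 0) (s : ℕ∞) : HMinTh sy K s :=
  Pool.Agent.H662.Z.main_th hO h hnc s

end Pool.Agent.Results.MP_5cb3d8_lc.ZeroOmegaNoCoarsening
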