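import Pool.Agent.H662.Z7

/-!
# The condition of 1-h-minimality in 0-h-minimal theories, for the values which are units of all
the definable coarsenings
-/

set_option autoImplicit false

namespace Pool.Agent.Results.MP_5cb3d8_lc.ZeroOneSmallLambda

open FirstOrder Language Structure Pool.Agent.R611.HM

universe u

/-- Let `K` be a valued field of equicharacteristic zero, with valuation ring `O`, in a language
expanding the language of valued fields, with 0-h-minimal theory. Let `l` be a nonzero element of
`O` which is a unit in every valuation ring of `K` which strictly contains `O` and is definable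
with parameters. Then the condition of 1-h-minimality holds in `K` for `lam = |l|`: every set
definable over `A`, `RV` and at most one element of `RV_lam` is `lam`-prepared by some non-empty
finite `A`-definable set. -/
theorem result (L : FirstOrder.Language.{u, u}) (sy : ValSymbols L) (K : Type u)
    [L.Structure K] [Field K] (O : ValuationSubring K) (hO : IsValued sy O)
    (h : HMinTh sy K 0) (l : K) (hl0 : l ≠ 0) (hl1 : l ∈ O)
    (hl : ∀ R : ValuationSubring K, O < R → (Set.univ : Set K).Definable₁ L (R : Set K) →
      l⁻¹ ∈ R) (A : Set K) (A' : Set (RV O (O.valuation l))) (hA' : A'.encard ≤ 1)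
    (X : Set K) (hX : DefinableOver O L (O.valuation l) A A' X) :
    ∃ C : Set K, C.Finite ∧ C.Nonempty ∧ A.Definable₁ L C ∧
      Prepared O (O.valuation l) C X :=
  Pool.Agent.H662.Z.main_lam hO h hl0 ((O.valuation_le_one_iff l).2 hl1)
    (fun R h1 h2 => (eq_or_ne R O).imp id fun h3 => hl R (lt_of_le_of_ne h1 h3.symm) h2) A A'
    (Set.finite_of_encard_le_coe hA') hA' X hX

end Pool.Agent.Results.MP_5cb3d8_lc.ZeroOneSmallLambda
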